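import Pool.Agent.Helper553.Uni.Dense

set_option autoImplicit false

open MvPolynomial Pool.Agent.Helper553.Uni

namespace Pool.Agent.Results.MP_02e6ff_ag.FiniteFibres

/-- The set of `k`-points of `V` is Zariski dense in `V`: a bihomogeneous polynomial over `k` which
vanishes at all `k`-points of `V` vanishes on all of `V`. -/
def DensePoints {k : Type} [Field k] {m n : ℕ} (V : BiProj k m n) : Prop :=
  ∀ f : MvPolynomial (Coord m n) k, Bihomogeneous f → (∀ p ∈ V.points k, aeval p f = 0) →
    ∀ q ∈ V.points (AlgebraicClosure k), aeval q f = 0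

/-- Over the rational function field `k` in one variable over the field with two elements there
is a smooth, geometrically irreducible, rationally connected surface with a `k`-point whose
`k`-points are not Zariski dense. -/
theorem result :
    Infinite (FractionRing (Polynomial (ZMod 2))) ∧
    ∃ V : BiProj (FractionRing (Polynomial (ZMod 2))) 1 5, V.SmoothOfDim 2 ∧ V.GeomIrreducible ∧
      V.RationallyConnected ∧ (V.points (FractionRing (Polynomial (ZMod 2)))).Nonempty ∧
      ¬ DensePoints V := by
  refine ⟨infinite_of_nonsquare tX tX_nonsquare, surface (bet tX),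
    smooth _ (bet_injective tX tX_nonsquare) (bet_ne_zero tX tX_nonsquare)
      (bet_ne_one tX tX_nonsquare),
    irreducible_surface _ (bet_ne_zero tX tX_nonsquare) (bet_ne_one tX tX_nonsquare),
    rationallyConnected_surface _ (bet_ne_zero tX tX_nonsquare) (bet_ne_one tX tX_nonsquare),
    point_surface _, ?_⟩
  intro h
  obtain ⟨T, hT, hT2⟩ := finite_fibres_KX
  refine prod_lin (bet tX) (bet_ne_zero tX tX_nonsquare) (bet_ne_one tX tX_nonsquare) T hT
    (h _ (prod_bihom T) ?_)
  intro p hp
  obtain ⟨q, hq, hq2⟩ := hT2 p hp
  rw [map_prod]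
  apply Finset.prod_eq_zero hq
  rw [map_add, map_mul, map_mul, aeval_C, aeval_C, aeval_X, aeval_X]
  exact hq2

end Pool.Agent.Results.MP_02e6ff_ag.FiniteFibres
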