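import Mathlib
import Pool.Agent.Helper825.RC.Base
import Pool.Agent.Helper825.RC.Main

set_option autoImplicit false

namespace Pool.Agent.Results.MP_02e6ff_ag.NotDense

open Pool.Agent.Helper825.RC

/-- For every odd prime `p` there are an infinite field `K` of characteristic `p` and a smooth
projective geometrically integral rationally connected surface `X` over `K` in `P^8`, given by a
set `S` of homogeneous equations, which has a rational point, but whose rational points are not
Zariski dense. -/
theorem result (p : ℕ) (hp : p.Prime) (hp2 : p ≠ 2) :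
    ∃ (K : Type) (_ : Field K) (S : Set (MvPolynomial (Fin 3 × Fin 3) K)),
      CharP K p ∧ Infinite K ∧ (∀ f ∈ S, ∃ n, f.IsHomogeneous n) ∧
      SmoothCodim K S 6 ∧ GeomIrred K S ∧ RatConn K S ∧
      (∃ v : Fin 3 × Fin 3 → K, v ≠ 0 ∧ Zero K K S v) ∧ ¬ DensePts K S :=
  main_result p hp hp2

end Pool.Agent.Results.MP_02e6ff_ag.NotDense
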